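import Pool.Agent.Helper12.AD.Stmts

/-!
AD: support functions of compact plane sets; rows HCT and HRF.
-/

set_option autoImplicit false

open Complex

noncomputable section

namespace AD

theorem sf_bdd {S : Set ℂ} (hS : IsCompact S) (θ : ℝ) :
    BddAbove ((fun z : ℂ => (z * (starRingEnd ℂ) (AX.e θ)).re) '' S) := by
  apply IsCompact.bddAbove
  apply hS.image
  fun_prop

theorem sf_le {S : Set ℂ} (hS : IsCompact S) (θ : ℝ) {z : ℂ} (hz : z ∈ S) :
    (z * (starRingEnd ℂ) (AX.e θ)).re ≤ h S θ :=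
  le_csSup (sf_bdd hS θ) ⟨z, hz, rfl⟩

theorem sf_ub {S : Set ℂ} (hn : S.Nonempty) (θ : ℝ) {c : ℝ}
    (hc : ∀ z ∈ S, (z * (starRingEnd ℂ) (AX.e θ)).re ≤ c) : h S θ ≤ c := by
  apply csSup_le (hn.image _)
  rintro _ ⟨z, hz, rfl⟩
  exact hc z hz

theorem sf_ex {S : Set ℂ} (hS : IsCompact S) (hn : S.Nonempty) (θ : ℝ) :
    ∃ z ∈ S, (z * (starRingEnd ℂ) (AX.e θ)).re = h S θ := by
  have hc : ContinuousOn (fun z : ℂ => (z * (starRingEnd ℂ) (AX.e θ)).re) S := by fun_prop
  obtain ⟨z, hz, hm⟩ := hS.exists_isMaxOn hn hc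
  refine ⟨z, hz, le_antisymm (sf_le hS θ hz) (sf_ub hn θ fun y hy => hm hy)⟩

theorem K_closed {n : ℕ} (r : ℝ) (c : Fin n → ℂ) : IsClosed (AX.K r c) :=
  isClosed_iInter fun _ => Metric.isClosed_closedBall

theorem K_compact {n : ℕ} (r : ℝ) (c : Fin (n + 1) → ℂ) : IsCompact (AX.K r c) :=
  (isCompact_closedBall (c 0) r).of_isClosed_subset (K_closed r c) (Set.iInter_subset _ 0)

theorem e_cont : Continuous AX.e := by
  unfold AX.e
  fun_prop

theorem e_add (a b : ℝ) : AX.e (a + b) = AX.e a * AX.e b := by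
  unfold AX.e
  rw [← Complex.exp_add]
  congr 1
  push_cast
  ring

theorem e_two_pi : AX.e (2 * Real.pi) = 1 := by
  unfold AX.e
  push_cast
  exact Complex.exp_two_pi_mul_I

theorem h_per (S : Set ℂ) : Function.Periodic (h S) (2 * Real.pi) := by
  intro θ
  unfold h
  rw [e_add, e_two_pi, mul_one]

theorem st_HCT : ST_HCT := by
  intro S hS _
  unfold h
  apply hS.continuous_sSup
  have he := e_cont
  show Continuous fun x : ℝ × ℂ => (x.2 * (starRingEnd ℂ) (AX.e x.1)).re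
  fun_prop

theorem st_HRF (_ : ST_HCT) : ST_HRF := by
  intro S _ _ φ
  rw [intervalIntegral.integral_comp_sub_left (fun θ => h S θ)]
  have := (h_per S).intervalIntegral_add_eq (2 * φ + Real.pi - 2 * Real.pi) 0
  rw [zero_add] at this
  rw [← this]
  congr 1
  ring

end AD
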