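import Pool.Agent.Helper80.AD.SF

/-!
AD: rows SUP, STP and INV.
-/

set_option autoImplicit false

open Complex

noncomputable section

namespace AD

theorem e_norm (a : ℝ) : ‖AX.e a‖ = 1 := by
  unfold AX.e
  exact Complex.norm_exp_ofReal_mul_I a

theorem e_conj_mul (a : ℝ) : AX.e a * (starRingEnd ℂ) (AX.e a) = 1 := by
  rw [Complex.mul_conj, Complex.normSq_eq_norm_sq, e_norm]
  norm_num

theorem e_conj (a : ℝ) : (starRingEnd ℂ) (AX.e a) = AX.e (-a) := by
  unfold AX.e
  rw [← Complex.exp_conj]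
  congr 1
  rw [map_mul, Complex.conj_ofReal, Complex.conj_I]
  push_cast
  ring

theorem e_pi : AX.e Real.pi = -1 := by
  unfold AX.e
  exact Complex.exp_pi_mul_I

/-- the pairing of `y` with the reflected direction -/
theorem re_refl (y : ℂ) (φ θ : ℝ) :
    (y * (starRingEnd ℂ) (AX.e (2 * φ + Real.pi - θ))).re =
      (-(AX.e φ ^ 2 * (starRingEnd ℂ) y) * (starRingEnd ℂ) (AX.e θ)).re := by
  have h1 : AX.e (2 * φ + Real.pi - θ) = -(AX.e φ ^ 2 * (starRingEnd ℂ) (AX.e θ)) := by
    rw [sub_eq_add_neg, e_add, e_add, e_pi, two_mul, e_add, ← e_conj]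
    ring
  rw [← Complex.conj_re, map_mul, Complex.conj_conj, h1]
  congr 1
  ring

theorem st_SUP (hM : ST_MNK) : ST_SUP := by
  intro n r p q φ hr ht hd hK
  have hm := hM (n + 1) r p q (AX.e φ) hr (e_norm φ) ht hd
  have hcq := K_compact r q
  have hcp := K_compact r p
  refine ⟨?_, ?_⟩
  · obtain ⟨x, hx⟩ := hK
    obtain ⟨x', hx', _⟩ := hm x hx x hx
    exact ⟨x', hx'⟩
  · intro θ
    obtain ⟨x, hx, hx1⟩ := sf_ex hcp hK θ
    obtain ⟨y, hy, hy1⟩ := sf_ex hcp hK (2 * φ + Real.pi - θ)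
    obtain ⟨x', hx', y', hy', he⟩ := hm x hx y hy
    have h1 := sf_le hcq θ hx'
    have h2 := sf_le hcq (2 * φ + Real.pi - θ) hy'
    rw [re_refl] at h2 hy1
    rw [← hx1, ← hy1]
    have h3 : (x' * (starRingEnd ℂ) (AX.e θ)).re +
        (-(AX.e φ ^ 2 * (starRingEnd ℂ) y') * (starRingEnd ℂ) (AX.e θ)).re =
        (x * (starRingEnd ℂ) (AX.e θ)).re +
        (-(AX.e φ ^ 2 * (starRingEnd ℂ) y) * (starRingEnd ℂ) (AX.e θ)).re := by
      rw [← Complex.add_re, ← Complex.add_re, ← add_mul, ← add_mul, ← sub_eq_add_neg,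
        ← sub_eq_add_neg, he]
    linarith

theorem e_arg {z : ℂ} (hz : ‖z‖ = 1) : AX.e z.arg = z := by
  have := Complex.norm_mul_exp_arg_mul_I z
  rw [hz] at this
  unfold AX.e
  simpa using this

theorem st_STP (hS : ST_SUP) (hH : ST_HCT) (hR : ST_HRF) : ST_STP := by
  rintro n r p q hr ⟨u, hu, ht, hd⟩ hK
  have hu1 := e_arg hu
  set φ := u.arg with hφ
  have h1 := hS n r p q φ hr ?_ ?_ hK
  · obtain ⟨hq, hle⟩ := h1
    refine ⟨hq, ?_⟩
    have cp := hH _ (K_compact r p) hK
    have cq := hH _ (K_compact r q) hq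
    have cs : Continuous fun θ : ℝ => 2 * φ + Real.pi - θ := by fun_prop
    have i1 := hR _ (K_compact r p) hK φ
    have i2 := hR _ (K_compact r q) hq φ
    have h2 : ∫ θ in (0 : ℝ)..(2 * Real.pi),
        (h (AX.K r p) θ + h (AX.K r p) (2 * φ + Real.pi - θ)) ≤
        ∫ θ in (0 : ℝ)..(2 * Real.pi),
        (h (AX.K r q) θ + h (AX.K r q) (2 * φ + Real.pi - θ)) := by
      apply intervalIntegral.integral_mono (by positivity)
      · exact (cp.add (cp.comp cs)).intervalIntegrable _ _
      · exact (cq.add (cq.comp cs)).intervalIntegrable _ _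
      · exact hle
    have j1 : IntervalIntegrable (fun θ : ℝ => h (AX.K r p) (2 * φ + Real.pi - θ))
        MeasureTheory.volume 0 (2 * Real.pi) := (cp.comp cs).intervalIntegrable _ _
    have j2 : IntervalIntegrable (fun θ : ℝ => h (AX.K r q) (2 * φ + Real.pi - θ))
        MeasureTheory.volume 0 (2 * Real.pi) := (cq.comp cs).intervalIntegrable _ _
    rw [intervalIntegral.integral_add (cp.intervalIntegrable _ _) j1,
      intervalIntegral.integral_add (cq.intervalIntegrable _ _) j2, i1, i2] at h2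
    linarith
  · intro i
    obtain ⟨t, h⟩ := ht i
    refine ⟨t, ?_⟩
    rw [hu1, h, Complex.real_smul]
  · intro i j
    have := hd i j
    rw [hu1]
    rw [Complex.inner, Complex.inner] at this
    exact this

theorem st_INV (hS : ST_STP) (hM : ST_MIX) (hL : ST_LIM) (hH : ST_HCT) : ST_INV := by
  intro n r p q hr hR
  induction hR with
  | step h => exact hS n r _ _ hr h
  | comp _ _ h1 h2 =>
    intro hK
    obtain ⟨a, b⟩ := h1 hK
    obtain ⟨c, d⟩ := h2 a
    exact ⟨c, b.trans d⟩
  | @mix p q s a b _ _ ha hb hab h1 h2 =>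
    intro hK
    obtain ⟨q1, q2⟩ := h1 hK
    obtain ⟨s1, s2⟩ := h2 hK
    obtain ⟨m1, m2⟩ := hM n r q s a b hr ha hb hab q1 s1
    refine ⟨m1, ?_⟩
    have cq := hH _ (K_compact r q) q1
    have cs := hH _ (K_compact r s) s1
    have cm := hH _ (K_compact r (a • q + b • s)) m1
    have h3 : ∫ θ in (0 : ℝ)..(2 * Real.pi),
        (a * h (AX.K r q) θ + b * h (AX.K r s) θ) ≤
        ∫ θ in (0 : ℝ)..(2 * Real.pi), h (AX.K r (a • q + b • s)) θ := by
      apply intervalIntegral.integral_mono (by positivity)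
      · exact ((continuous_const.mul cq).add (continuous_const.mul cs)).intervalIntegrable _ _
      · exact cm.intervalIntegrable _ _
      · exact m2
    have j1 : IntervalIntegrable (fun θ : ℝ => a * h (AX.K r q) θ)
        MeasureTheory.volume 0 (2 * Real.pi) := (continuous_const.mul cq).intervalIntegrable _ _
    have j2 : IntervalIntegrable (fun θ : ℝ => b * h (AX.K r s) θ)
        MeasureTheory.volume 0 (2 * Real.pi) := (continuous_const.mul cs).intervalIntegrable _ _
    rw [intervalIntegral.integral_add j1 j2,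
      intervalIntegral.integral_const_mul, intervalIntegral.integral_const_mul] at h3
    refine le_trans ?_ h3
    have h4 := mul_le_mul_of_nonneg_left q2 ha
    have h5 := mul_le_mul_of_nonneg_left s2 hb
    have h6 : (∫ θ in (0 : ℝ)..(2 * Real.pi), h (AX.K r p) θ) =
        a * (∫ θ in (0 : ℝ)..(2 * Real.pi), h (AX.K r p) θ) +
        b * (∫ θ in (0 : ℝ)..(2 * Real.pi), h (AX.K r p) θ) := by
      rw [← add_mul, hab, one_mul]
    linarith
  | @lim p q u _ hu ih =>
    intro hK
    exact hL n r u q _ hr hu fun k => ih k hK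

end AD
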